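import Pool.Agent.Lib.MP_94c361_co_D.Div

set_option autoImplicit false

namespace Pool.Agent.Results.MP_94c361_co.Divisibility

open Pool.Agent.Lib.MP_94c361_co_D

/-- For every 4-regular multigraph with `n ≥ 1` vertices (edges `e : E` with ends `s e`, `t e`;
loops and multiple edges are allowed) the coefficient of `∏ x_v ^ 2` in the graph polynomial is
divisible by `6`, and it is divisible by `18` if `n` is `1` modulo `3`. -/
theorem result (V E : Type) [Fintype V] [DecidableEq V] [Fintype E] [DecidableEq E] [Nonempty V]
    (s t : E → V) (h : FourRegular s t) :
    (if Fintype.card V % 3 = 1 then 18 else 6) ∣ atc s t :=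
  main s t h

end Pool.Agent.Results.MP_94c361_co.Divisibility
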