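import Pool.Agent.Lib.MP_94c361_co_F.Lower
import Pool.Agent.Lib.MP_94c361_co_F.Bounds

/-!
# MP_94c361_co: the growth rate of the second moment, union of two random Hamiltonian cycles

`full n` is the set of cyclic permutations of all `n` vertices (each Hamiltonian cycle is given by
two of them), `hc σ τ` the coefficient of `∏ x_v ^ 2` in the graph polynomial of the union of
the cycles of `σ` and `τ`, and `heo σ τ` the number of Eulerian orientations of this union.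
-/

set_option autoImplicit false

open scoped BigOperators Topology
open Filter

namespace Pool.Agent.Results.MP_94c361_co.GrowthRate

open Pool.Agent.MP94h Pool.Agent.MP94f

theorem result :
    (∀ n : ℕ, 3 ≤ n →
      2 * ((∑ σ ∈ full n, ∑ τ ∈ full n, heo σ τ : ℕ) : ℤ) +
          (if Even n then 8 else -8) * ((full n).card : ℤ) ^ 2 ≤
        ∑ σ ∈ full n, ∑ τ ∈ full n, (hc σ τ) ^ 2 ∧
      (4 * ∑ k ∈ Finset.range (n / 2 + 1), (n.choose (2 * k) : ℝ) / ((2 * k).choose k : ℝ)) *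
          ((full n).card : ℝ) ^ 2 ≤
        ((∑ σ ∈ full n, ∑ τ ∈ full n, heo σ τ : ℕ) : ℝ) ∧
      (4 * (((3 : ℝ) / 2) ^ n + (1 / 2) ^ n) + (if Even n then 8 else -8)) *
          ((full n).card : ℝ) ^ 2 ≤
        ((∑ σ ∈ full n, ∑ τ ∈ full n, (hc σ τ) ^ 2 : ℤ) : ℝ) ∧
      ((∑ σ ∈ full n, ∑ τ ∈ full n, (hc σ τ) ^ 2 : ℤ) : ℝ) ≤
        ((n : ℝ) + 1) ^ 10 * (3 / 2) ^ n * ((full n).card : ℝ) ^ 2) ∧
    Tendsto (fun n : ℕ => (((∑ σ ∈ full n, ∑ τ ∈ full n, (hc σ τ) ^ 2 : ℤ) : ℝ) /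
      ((full n).card : ℝ) ^ 2) ^ (1 / (n : ℝ))) atTop (𝓝 (3 / 2)) ∧
    ∀ n : ℕ, 3 ≤ n → ∀ K : ℝ, 0 < K →
      ((((full n) ×ˢ (full n)).filter (fun p =>
        K * (((n : ℝ) + 1) ^ 10 * (3 / 2) ^ n) ≤ ((hc p.1 p.2 ^ 2 : ℤ) : ℝ))).card : ℝ) /
        ((full n).card : ℝ) ^ 2 ≤ 1 / K := by
  have hpos : ∀ n : ℕ, 3 ≤ n → (0 : ℝ) < ((full n).card : ℝ) ^ 2 := full_pos
  refine ⟨fun n hn => ⟨(lower_result n hn).2.1, (lower_result n hn).2.2.1,
    (lower_result n hn).2.2.2, (bounds n hn).2.1⟩, ?_, fun n hn K hK => ?_⟩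
  · have h1 : Tendsto (fun n : ℕ => ((n : ℝ) + 1) ^ ((10 : ℝ) / (1 * ((n : ℝ) + 1) + (-1))))
        atTop (𝓝 1) :=
      (tendsto_rpow_div_mul_add 10 1 (-1) (by norm_num)).comp
        (tendsto_atTop_add_const_right atTop (1 : ℝ) tendsto_natCast_atTop_atTop)
    have h2 := h1.mul_const (3 / 2 : ℝ)
    rw [one_mul] at h2
    refine tendsto_of_tendsto_of_tendsto_of_le_of_le' tendsto_const_nhds h2 ?_ ?_
    · filter_upwards [eventually_ge_atTop 3] with n hn
      have hn0 : (n : ℝ) ≠ 0 := by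
        have : (3 : ℝ) ≤ n := by exact_mod_cast hn
        linarith
      have h3 : (3 / 2 : ℝ) ^ n ≤ ((∑ σ ∈ full n, ∑ τ ∈ full n, (hc σ τ) ^ 2 : ℤ) : ℝ) /
          ((full n).card : ℝ) ^ 2 := by
        rw [le_div_iff₀ (hpos n hn)]
        exact (bounds n hn).1
      have h4 : (3 / 2 : ℝ) = ((3 / 2 : ℝ) ^ n) ^ (1 / (n : ℝ)) := by
        rw [← Real.rpow_natCast, ← Real.rpow_mul (by norm_num), mul_one_div_cancel hn0,
          Real.rpow_one]
      calc (3 / 2 : ℝ) = ((3 / 2 : ℝ) ^ n) ^ (1 / (n : ℝ)) := h4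
        _ ≤ _ := Real.rpow_le_rpow (by positivity) h3 (by positivity)
    · filter_upwards [eventually_ge_atTop 3] with n hn
      have hn0 : (n : ℝ) ≠ 0 := by
        have : (3 : ℝ) ≤ n := by exact_mod_cast hn
        linarith
      have h3 : ((∑ σ ∈ full n, ∑ τ ∈ full n, (hc σ τ) ^ 2 : ℤ) : ℝ) /
          ((full n).card : ℝ) ^ 2 ≤ ((n : ℝ) + 1) ^ 10 * (3 / 2) ^ n := by
        rw [div_le_iff₀ (hpos n hn)]
        exact (bounds n hn).2.1
      have h30 : (0 : ℝ) ≤ ((∑ σ ∈ full n, ∑ τ ∈ full n, (hc σ τ) ^ 2 : ℤ) : ℝ) /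
          ((full n).card : ℝ) ^ 2 :=
        div_nonneg (Int.cast_nonneg (Finset.sum_nonneg fun σ _ => Finset.sum_nonneg
          fun τ _ => sq_nonneg _)) (hpos n hn).le
      refine (Real.rpow_le_rpow h30 h3 (by positivity)).trans (le_of_eq ?_)
      rw [Real.mul_rpow (by positivity) (by positivity)]
      congr 1
      · rw [← Real.rpow_natCast ((n : ℝ) + 1) 10, ← Real.rpow_mul (by positivity)]
        congr 1
        push_cast
        rw [show (1 * ((n : ℝ) + 1) + -1) = n by ring]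
        ring
      · rw [← Real.rpow_natCast, ← Real.rpow_mul (by norm_num), mul_one_div_cancel hn0,
          Real.rpow_one]
  · rw [div_le_iff₀ (hpos n hn)]
    refine ((bounds n hn).2.2 K hK).trans (le_of_eq ?_)
    ring

end Pool.Agent.Results.MP_94c361_co.GrowthRate
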