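import Pool.Agent.Lib.MP_94c361_co_F.Bounds
import Pool.Agent.Lib.MP_94c361_co_V.Fourth

/-!
# MP_94c361_co: a lower bound for the probability that the coefficient is not zero

`full n` is the set of cyclic permutations of all `n` vertices (each Hamiltonian cycle is given by
two of them) and `hc σ τ` the coefficient of `∏ x_v ^ 2` in the graph polynomial of the union of
the cycles of `σ` and `τ`.
-/

set_option autoImplicit false

open scoped BigOperators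

namespace Pool.Agent.Results.MP_94c361_co.Nonvanishing

open Pool.Agent.MP94h Pool.Agent.MP94f

theorem result (n : ℕ) (hn : 3 ≤ n) :
    (6 / 7 : ℝ) ^ n / ((n : ℝ) + 1) ^ 34 ≤
      ((((full n) ×ˢ (full n)).filter (fun p => hc p.1 p.2 ≠ 0)).card : ℝ) /
        ((full n).card : ℝ) ^ 2 ∧
    4 * (2 / 3 : ℝ) ^ n / ((n : ℝ) + 1) ^ 10 ≤
      ((((full n) ×ˢ (full n)).filter (fun p => hc p.1 p.2 ≠ 0)).card : ℝ) /
        ((full n).card : ℝ) ^ 2 ∧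
    ((∑ σ ∈ full n, ∑ τ ∈ full n, (hc σ τ) ^ 4 : ℤ) : ℝ) ≤
      ((n : ℝ) + 1) ^ 34 * (21 / 8) ^ n * ((full n).card : ℝ) ^ 2 := by
  have hpos : ∀ n : ℕ, 3 ≤ n → (0 : ℝ) < ((full n).card : ℝ) ^ 2 := full_pos
  refine ⟨?_, ?_, fourth n hn⟩
  · set S := ((full n) ×ˢ (full n)).filter (fun p => hc p.1 p.2 ≠ 0) with hS
    have h1 : (3 / 2 : ℝ) ^ n * ((full n).card : ℝ) ^ 2 ≤
        ∑ p ∈ (full n) ×ˢ (full n), ((hc p.1 p.2 : ℤ) : ℝ) ^ 2 := by
      have h10 := (bounds n hn).1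
      rw [← Finset.sum_product'] at h10
      push_cast at h10
      exact h10
    have h2 : ∑ p ∈ (full n) ×ˢ (full n), ((hc p.1 p.2 : ℤ) : ℝ) ^ 2 =
        ∑ p ∈ S, ((hc p.1 p.2 : ℤ) : ℝ) ^ 2 := by
      rw [hS, Finset.sum_filter]
      refine Finset.sum_congr rfl fun p _ => ?_
      by_cases h : hc p.1 p.2 ≠ 0
      · rw [if_pos h]
      · rw [if_neg h, not_not.1 h]
        simp
    have h3 : (∑ p ∈ S, ((hc p.1 p.2 : ℤ) : ℝ) ^ 2) ^ 2 ≤
        (S.card : ℝ) * ∑ p ∈ S, (((hc p.1 p.2 : ℤ) : ℝ) ^ 2) ^ 2 := sq_sum_le_card_mul_sum_sq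
    have h4 : ∑ p ∈ S, (((hc p.1 p.2 : ℤ) : ℝ) ^ 2) ^ 2 ≤
        ((n : ℝ) + 1) ^ 34 * (21 / 8) ^ n * ((full n).card : ℝ) ^ 2 := by
      refine le_trans ?_ (fourth n hn)
      rw [← Finset.sum_product']
      push_cast
      have h40 : ∀ p : Equiv.Perm (Fin n) × Equiv.Perm (Fin n),
          (((hc p.1 p.2 : ℤ) : ℝ) ^ 2) ^ 2 = ((hc p.1 p.2 : ℤ) : ℝ) ^ 4 := fun p => by ring
      simp only [h40]
      refine Finset.sum_le_sum_of_subset_of_nonneg (Finset.filter_subset _ _)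
        (fun p _ _ => ?_)
      rw [← h40]
      positivity
    have h5 : ((3 / 2 : ℝ) ^ n * ((full n).card : ℝ) ^ 2) ^ 2 ≤
        (S.card : ℝ) * (((n : ℝ) + 1) ^ 34 * (21 / 8) ^ n * ((full n).card : ℝ) ^ 2) := by
      refine le_trans (pow_le_pow_left₀ (by positivity) (h1.trans (le_of_eq h2)) 2) ?_
      exact h3.trans (mul_le_mul_of_nonneg_left h4 (Nat.cast_nonneg _))
    have h6 : (9 / 4 : ℝ) ^ n * ((full n).card : ℝ) ^ 2 ≤
        (S.card : ℝ) * (((n : ℝ) + 1) ^ 34 * (21 / 8) ^ n) := by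
      have h7 : ((9 / 4 : ℝ) ^ n * ((full n).card : ℝ) ^ 2) * ((full n).card : ℝ) ^ 2 ≤
          ((S.card : ℝ) * (((n : ℝ) + 1) ^ 34 * (21 / 8) ^ n)) * ((full n).card : ℝ) ^ 2 := by
        have h70 : (9 / 4 : ℝ) ^ n = ((3 / 2 : ℝ) ^ n) ^ 2 := by
          rw [← pow_mul, mul_comm n 2, pow_mul]
          norm_num
        calc _ = ((3 / 2 : ℝ) ^ n * ((full n).card : ℝ) ^ 2) ^ 2 := by rw [h70]; ring
          _ ≤ _ := h5
          _ = _ := by ring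
      exact le_of_mul_le_mul_right h7 (hpos n hn)
    rw [div_le_div_iff₀ (by positivity) (hpos n hn)]
    have h8 : (8 / 21 : ℝ) ^ n * (21 / 8) ^ n = 1 := by
      rw [← mul_pow]
      norm_num
    have h81 : (6 / 7 : ℝ) ^ n = (8 / 21 : ℝ) ^ n * (9 / 4) ^ n := by
      rw [← mul_pow]
      norm_num
    have h9 : (0 : ℝ) ≤ (8 / 21 : ℝ) ^ n := by positivity
    calc (6 / 7 : ℝ) ^ n * ((full n).card : ℝ) ^ 2 =
        (8 / 21 : ℝ) ^ n * ((9 / 4 : ℝ) ^ n * ((full n).card : ℝ) ^ 2) := by rw [h81]; ring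
      _ ≤ (8 / 21 : ℝ) ^ n * ((S.card : ℝ) * (((n : ℝ) + 1) ^ 34 * (21 / 8) ^ n)) :=
        mul_le_mul_of_nonneg_left h6 h9
      _ = ((8 / 21 : ℝ) ^ n * (21 / 8) ^ n) * ((S.card : ℝ) * ((n : ℝ) + 1) ^ 34) := by ring
      _ = _ := by rw [h8, one_mul]
  · have h1 : (2 : ℝ) * ((full n).card : ℝ) ^ 2 ≤
        ∑ p ∈ (full n) ×ˢ (full n), |((hc p.1 p.2 : ℤ) : ℝ)| := by
      have h10 := abs_sum_ge (n := n) (by omega)
      have h11 : ((2 * ((full n).card : ℤ) ^ 2 : ℤ) : ℝ) ≤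
          ((∑ σ ∈ full n, ∑ τ ∈ full n, |hc σ τ| : ℤ) : ℝ) := by exact_mod_cast h10
      rw [← Finset.sum_product'] at h11
      push_cast at h11
      exact h11
    set S := ((full n) ×ˢ (full n)).filter (fun p => hc p.1 p.2 ≠ 0) with hS
    have h2 : ∑ p ∈ (full n) ×ˢ (full n), |((hc p.1 p.2 : ℤ) : ℝ)| =
        ∑ p ∈ S, |((hc p.1 p.2 : ℤ) : ℝ)| := by
      rw [hS, Finset.sum_filter]
      refine Finset.sum_congr rfl fun p _ => ?_
      by_cases h : hc p.1 p.2 ≠ 0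
      · rw [if_pos h]
      · rw [if_neg h, not_not.1 h]
        simp
    have h3 : (∑ p ∈ S, |((hc p.1 p.2 : ℤ) : ℝ)|) ^ 2 ≤
        (S.card : ℝ) * ∑ p ∈ S, |((hc p.1 p.2 : ℤ) : ℝ)| ^ 2 := sq_sum_le_card_mul_sum_sq
    have h4 : ∑ p ∈ S, |((hc p.1 p.2 : ℤ) : ℝ)| ^ 2 ≤
        ((n : ℝ) + 1) ^ 10 * (3 / 2) ^ n * ((full n).card : ℝ) ^ 2 := by
      refine le_trans ?_ (bounds n hn).2.1
      rw [← Finset.sum_product']
      push_cast
      simp only [sq_abs]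
      exact Finset.sum_le_sum_of_subset_of_nonneg (Finset.filter_subset _ _)
        (fun p _ _ => sq_nonneg _)
    have h5 : (2 * ((full n).card : ℝ) ^ 2) ^ 2 ≤
        (S.card : ℝ) * (((n : ℝ) + 1) ^ 10 * (3 / 2) ^ n * ((full n).card : ℝ) ^ 2) := by
      refine le_trans (pow_le_pow_left₀ (by positivity) (h1.trans (le_of_eq h2)) 2) ?_
      exact h3.trans (mul_le_mul_of_nonneg_left h4 (Nat.cast_nonneg _))
    have h6 : 4 * ((full n).card : ℝ) ^ 2 ≤ (S.card : ℝ) * (((n : ℝ) + 1) ^ 10 * (3 / 2) ^ n) := by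
      have h7 : (4 * ((full n).card : ℝ) ^ 2) * ((full n).card : ℝ) ^ 2 ≤
          ((S.card : ℝ) * (((n : ℝ) + 1) ^ 10 * (3 / 2) ^ n)) * ((full n).card : ℝ) ^ 2 := by
        calc _ = (2 * ((full n).card : ℝ) ^ 2) ^ 2 := by ring
          _ ≤ _ := h5
          _ = _ := by ring
      exact le_of_mul_le_mul_right h7 (hpos n hn)
    rw [div_le_div_iff₀ (by positivity) (hpos n hn)]
    have h8 : (2 / 3 : ℝ) ^ n * (3 / 2) ^ n = 1 := by
      rw [← mul_pow]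
      norm_num
    have h9 : (0 : ℝ) ≤ (2 / 3 : ℝ) ^ n := by positivity
    calc 4 * (2 / 3 : ℝ) ^ n * ((full n).card : ℝ) ^ 2 =
        (2 / 3 : ℝ) ^ n * (4 * ((full n).card : ℝ) ^ 2) := by ring
      _ ≤ (2 / 3 : ℝ) ^ n * ((S.card : ℝ) * (((n : ℝ) + 1) ^ 10 * (3 / 2) ^ n)) :=
        mul_le_mul_of_nonneg_left h6 h9
      _ = ((2 / 3 : ℝ) ^ n * (3 / 2) ^ n) * ((S.card : ℝ) * ((n : ℝ) + 1) ^ 10) := by ring
      _ = _ := by rw [h8, one_mul]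

end Pool.Agent.Results.MP_94c361_co.Nonvanishing
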