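import Pool.Agent.Lib.MP_94c361_co_M.Eo
import Pool.Agent.Lib.MP_94c361_co_M.Rec

/-!
# MP_94c361_co: the second moment of the Alon-Tarsi coefficient in the pairing model

`pairings n` is the set of perfect matchings of the `4n` half-edges `Fin n × Fin 4` (as involutions
without fixed points), `atc σ` the coefficient of `∏ x_v ^ 2` in the graph polynomial of the
4-regular multigraph of `σ`, and `eo σ` its number of Eulerian orientations.
-/

set_option autoImplicit false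

open scoped BigOperators

namespace Pool.Agent.Results.MP_94c361_co.PairingMoment

open Pool.Agent.MP94c

theorem result (n : ℕ) (hn : 1 ≤ n) :
    (pairings n).card * (4 ^ n * (2 * n).factorial) = (4 * n).factorial ∧
    ∑ σ ∈ pairings n, eo σ = 6 ^ n * (2 * n).factorial ∧
    ((∑ σ ∈ pairings n, (atc σ) ^ 2 : ℤ) : ℝ) =
      ((2 * n + 1) * ∫ t in (0 : ℝ)..1, (1 - 6 * t + 6 * t ^ 2) ^ n) *
        ((∑ σ ∈ pairings n, eo σ : ℕ) : ℝ) ∧
    (∀ m : ℕ, (2 * ((m + 1 : ℕ) : ℝ) + 1) * ∫ t in (0 : ℝ)..1, (1 - 6 * t + 6 * t ^ 2) ^ (m + 1) =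
      1 - ((m : ℝ) + 1) / (2 * m + 1) *
        ((2 * (m : ℝ) + 1) * ∫ t in (0 : ℝ)..1, (1 - 6 * t + 6 * t ^ 2) ^ m)) ∧
    |(2 * (n : ℝ) + 1) * (∫ t in (0 : ℝ)..1, (1 - 6 * t + 6 * t ^ 2) ^ n) - 2 / 3| ≤ 1 / n ∧
    ∀ K : ℝ, 0 < K →
      (((pairings n).filter (fun σ =>
        K * (24 ^ n / ((4 * n).choose (2 * n) : ℝ)) ≤ ((atc σ ^ 2 : ℤ) : ℝ))).card : ℝ) ≤
        (2 / 3 + 1 / n) / K * (pairings n).card := by
  have hA := card_pairings n
  have hB := sum_eo n
  have hC : ((∑ σ ∈ pairings n, (atc σ) ^ 2 : ℤ) : ℝ) =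
      ((2 * n + 1) * ∫ t in (0 : ℝ)..1, (1 - 6 * t + 6 * t ^ 2) ^ n) *
        ((∑ σ ∈ pairings n, eo σ : ℕ) : ℝ) := by
    rw [second_moment n, hB, Nat.factorial_succ]
    push_cast
    ring
  have hD : |(2 * (n : ℝ) + 1) * (∫ t in (0 : ℝ)..1, (1 - 6 * t + 6 * t ^ 2) ^ n) - 2 / 3| ≤
      1 / n := by
    obtain ⟨m, rfl⟩ : ∃ m, n = m + 1 := ⟨n - 1, by omega⟩
    have h1 := ratio_bound m
    unfold ratio at h1
    push_cast at h1 ⊢
    exact h1
  refine ⟨hA, hB, hC, fun m => ?_, hD, fun K hK => ?_⟩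
  · have h1 := ratio_succ m
    unfold ratio at h1
    exact h1
  · have hp : (0 : ℝ) < ((4 * n).choose (2 * n) : ℝ) := by
      exact_mod_cast Nat.choose_pos (by omega)
    have hM : (24 : ℝ) ^ n / ((4 * n).choose (2 * n) : ℝ) * ((pairings n).card : ℝ) =
        6 ^ n * ((2 * n).factorial : ℝ) := by
      have h1 := Nat.choose_mul_factorial_mul_factorial (show 2 * n ≤ 4 * n by omega)
      have h2 : 4 * n - 2 * n = 2 * n := by omega
      rw [h2, ← hA] at h1
      have h3 : ((4 * n).choose (2 * n) : ℝ) * ((2 * n).factorial : ℝ) =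
          ((pairings n).card : ℝ) * 4 ^ n := by
        have h4 : (4 * n).choose (2 * n) * (2 * n).factorial = (pairings n).card * 4 ^ n := by
          apply Nat.eq_of_mul_eq_mul_right (Nat.factorial_pos (2 * n))
          rw [h1]
          ring
        exact_mod_cast h4
      rw [div_mul_eq_mul_div, div_eq_iff hp.ne']
      have h5 : (24 : ℝ) ^ n = 6 ^ n * 4 ^ n := by
        rw [← mul_pow]
        norm_num
      rw [h5]
      calc (6 : ℝ) ^ n * 4 ^ n * ((pairings n).card : ℝ) =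
          6 ^ n * (((pairings n).card : ℝ) * 4 ^ n) := by ring
        _ = 6 ^ n * (((4 * n).choose (2 * n) : ℝ) * ((2 * n).factorial : ℝ)) := by rw [h3]
        _ = _ := by ring
    set S := (pairings n).filter (fun σ =>
        K * (24 ^ n / ((4 * n).choose (2 * n) : ℝ)) ≤ ((atc σ ^ 2 : ℤ) : ℝ)) with hS
    set M : ℝ := 24 ^ n / ((4 * n).choose (2 * n) : ℝ) with hMd
    have hM0 : 0 < M := by positivity
    have h1 : (S.card : ℝ) * (K * M) ≤ ((∑ σ ∈ pairings n, (atc σ) ^ 2 : ℤ) : ℝ) := by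
      have h2 : (S.card : ℝ) * (K * M) ≤ ∑ σ ∈ S, ((atc σ ^ 2 : ℤ) : ℝ) := by
        rw [← nsmul_eq_mul]
        exact Finset.card_nsmul_le_sum _ _ _ (fun σ hσ => (Finset.mem_filter.1 hσ).2)
      refine h2.trans ?_
      push_cast
      exact Finset.sum_le_sum_of_subset_of_nonneg (Finset.filter_subset _ _)
        (fun σ _ _ => sq_nonneg _)
    have h3 : ((∑ σ ∈ pairings n, (atc σ) ^ 2 : ℤ) : ℝ) ≤
        (2 / 3 + 1 / n) * (M * ((pairings n).card : ℝ)) := by
      rw [hC, hB, hM]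
      push_cast
      have h4 := (abs_le.1 hD).2
      exact mul_le_mul_of_nonneg_right (by linarith) (by positivity)
    have h5 : (S.card : ℝ) * (K * M) ≤ (2 / 3 + 1 / n) * (M * ((pairings n).card : ℝ)) :=
      h1.trans h3
    have h6 : (S.card : ℝ) * K * M ≤ ((2 / 3 + 1 / n) * ((pairings n).card : ℝ)) * M := by
      calc (S.card : ℝ) * K * M = (S.card : ℝ) * (K * M) := by ring
        _ ≤ _ := h5
        _ = _ := by ring
    have h7 := le_of_mul_le_mul_right h6 hM0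
    rw [div_mul_eq_mul_div, le_div_iff₀ hK]
    exact h7

end Pool.Agent.Results.MP_94c361_co.PairingMoment
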